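import Mathlib

set_option autoImplicit false

open Real

namespace Pool.Agent.W5h40.NT

/-- the periods -/
def pp (j : ℕ) : ℕ := 2 ^ (j ^ 2)

/-- the angle `2 π n / p_j` -/
noncomputable def ang (n : ℤ) (j : ℕ) : ℝ := 2 * π * n / pp j

/-- the coordinates -/
noncomputable def sq (n : ℤ) (j : ℕ) : ℂ := (j : ℂ) * (Complex.exp (Complex.I * (ang n j : ℝ)) - 1)

theorem norm_sq_le (n : ℤ) (j : ℕ) : ‖sq n j‖ ≤ j * |ang n j| := by
  unfold sq
  rw [norm_mul, Complex.norm_natCast]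
  exact mul_le_mul_of_nonneg_left Real.norm_exp_I_mul_ofReal_sub_one_le (by positivity)

theorem pp_ge (j : ℕ) : (2 : ℝ) ^ j ≤ pp j := by
  unfold pp
  push_cast
  exact pow_le_pow_right₀ (by norm_num) (by nlinarith [Nat.zero_le j, Nat.zero_le (j*j), Nat.le_self_pow (n := 2) (by norm_num) j])

theorem pp_pos (j : ℕ) : (0 : ℝ) < pp j := by
  unfold pp
  positivity

theorem summ : Summable fun j : ℕ => ((j : ℝ) / 2 ^ j) ^ 2 := by
  have h := summable_pow_mul_geometric_of_norm_lt_one (R := ℝ) 2 (r := 1 / 4)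
    (by rw [Real.norm_eq_abs, abs_of_pos (by norm_num)]; norm_num)
  refine h.congr fun j => ?_
  have h4 : (1 / 4 : ℝ) = (1 / 2) ^ 2 := by norm_num
  rw [h4, ← pow_mul, mul_comm 2 j, pow_mul, ← mul_pow]
  congr 1
  rw [one_div, inv_pow]
  rfl

theorem mem (n : ℤ) : Memℓp (fun j => sq n j) 2 := by
  apply memℓp_gen
  have h2 : (2 : ENNReal).toReal = 2 := by norm_num
  rw [h2]
  have h3 : Summable fun j : ℕ => (2 * π * |(n : ℝ)|) ^ 2 * ((j : ℝ) / 2 ^ j) ^ 2 :=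
    summ.mul_left _
  refine Summable.of_nonneg_of_le (fun j => by positivity) (fun j => ?_) h3
  rw [← mul_pow, Real.rpow_two]
  refine pow_le_pow_left₀ (norm_nonneg _) ((norm_sq_le n j).trans ?_) 2
  unfold ang
  rw [abs_div, abs_mul, abs_of_pos (by positivity : 0 < 2 * π), abs_of_pos (pp_pos j)]
  have h4 : 1 / (pp j : ℝ) ≤ 1 / 2 ^ j := one_div_le_one_div_of_le (by positivity) (pp_ge j)
  calc (j : ℝ) * (2 * π * |(n : ℝ)| / pp j) = 2 * π * |(n : ℝ)| * j * (1 / pp j) := by ring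
    _ ≤ 2 * π * |(n : ℝ)| * j * (1 / 2 ^ j) := mul_le_mul_of_nonneg_left h4 (by positivity)
    _ = _ := by ring

/-- the embedding of the integers in the Hilbert space -/
noncomputable def bb (n : ℤ) : lp (fun _ : ℕ => ℂ) 2 := ⟨fun j => sq n j, mem n⟩

theorem norm_bb (f : lp (fun _ : ℕ => ℂ) 2) : ‖f‖ ^ 2 = ∑' j, ‖f j‖ ^ 2 := by
  have h := lp.norm_rpow_eq_tsum (p := 2) (by norm_num) f
  have h2 : (2 : ENNReal).toReal = 2 := by norm_num
  rw [h2] at h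
  simpa [Real.rpow_two] using h

theorem norm_bb_sub (m n : ℤ) : ‖bb m - bb n‖ = ‖bb (m - n)‖ := by
  have h : ‖bb m - bb n‖ ^ 2 = ‖bb (m - n)‖ ^ 2 := by
    rw [norm_bb, norm_bb]
    congr 1
    funext j
    congr 1
    rw [lp.coeFn_sub, Pi.sub_apply]
    show ‖sq m j - sq n j‖ = ‖sq (m - n) j‖
    unfold sq
    have e1 : Complex.exp (Complex.I * (ang m j : ℝ)) =
        Complex.exp (Complex.I * (ang n j : ℝ)) * Complex.exp (Complex.I * (ang (m - n) j : ℝ)) := by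
      rw [← Complex.exp_add]
      congr 1
      unfold ang
      push_cast
      ring
    have e2 : (j : ℂ) * (Complex.exp (Complex.I * (ang m j : ℝ)) - 1) -
        (j : ℂ) * (Complex.exp (Complex.I * (ang n j : ℝ)) - 1) =
        Complex.exp (Complex.I * (ang n j : ℝ)) *
          ((j : ℂ) * (Complex.exp (Complex.I * (ang (m - n) j : ℝ)) - 1)) := by
      rw [e1]
      ring
    rw [e2, norm_mul, mul_comm Complex.I, Complex.norm_exp_ofReal_mul_I, one_mul]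
  exact (sq_eq_sq₀ (norm_nonneg _) (norm_nonneg _)).1 h

theorem bb_zero : bb 0 = 0 := by
  apply lp.ext
  funext j
  show sq 0 j = 0
  simp [sq, ang]

theorem norm_bb_neg (n : ℤ) : ‖bb (-n)‖ = ‖bb n‖ := by
  have h1 := norm_bb_sub 0 n
  rw [zero_sub, bb_zero, zero_sub, norm_neg] at h1
  exact h1.symm

theorem sq_pp (k j : ℕ) : ‖sq (pp k) j‖ ≤ 2 * π * (1 / 2 ^ k) * ((j : ℝ) / 2 ^ j) := by
  rcases le_or_gt j k with h | h
  · have h0 : sq (pp k) j = 0 := by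
      unfold sq
      have h1 : Complex.exp (Complex.I * (ang (pp k) j : ℝ)) = 1 := by
        rw [Complex.exp_eq_one_iff]
        refine ⟨(2 ^ (k ^ 2 - j ^ 2) : ℕ), ?_⟩
        have h2 : (pp k : ℂ) = (2 ^ (k ^ 2 - j ^ 2) : ℕ) * (pp j : ℂ) := by
          unfold pp
          push_cast
          rw [← pow_add]
          congr 1
          have : j ^ 2 ≤ k ^ 2 := Nat.pow_le_pow_left h 2
          omega
        have h3 : (pp j : ℂ) ≠ 0 := by
          unfold pp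
          exact_mod_cast (pow_pos (by norm_num : 0 < 2) _).ne'
        unfold ang
        push_cast at h2 ⊢
        rw [h2]
        field_simp
      rw [h1, sub_self, mul_zero]
    rw [h0, norm_zero]
    positivity
  · refine (norm_sq_le _ _).trans ?_
    unfold ang
    rw [abs_of_nonneg (by positivity)]
    have h1 : ((pp k : ℤ) : ℝ) / pp j ≤ 1 / 2 ^ k * (1 / 2 ^ j) := by
      rw [div_le_iff₀ (pp_pos j)]
      have h2 : (pp k : ℝ) * (2 ^ k * 2 ^ j) ≤ pp j := by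
        unfold pp
        push_cast
        rw [← pow_add, ← pow_add]
        refine pow_le_pow_right₀ (by norm_num) ?_
        nlinarith
      have h3 : ((pp k : ℤ) : ℝ) = (pp k : ℝ) := by push_cast; rfl
      rw [h3]
      have h4 : (0 : ℝ) < 2 ^ k * 2 ^ j := by positivity
      have h5 : 1 / 2 ^ k * (1 / 2 ^ j) * (pp j : ℝ) = pp j / (2 ^ k * 2 ^ j) := by
        field_simp
      rw [h5, le_div_iff₀ h4]
      exact h2
    calc (j : ℝ) * (2 * π * ((pp k : ℤ) : ℝ) / pp j) = j * (2 * π) * (((pp k : ℤ) : ℝ) / pp j) := by ring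
      _ ≤ j * (2 * π) * (1 / 2 ^ k * (1 / 2 ^ j)) := mul_le_mul_of_nonneg_left h1 (by positivity)
      _ = _ := by ring

theorem norm_bb_pp_le (k : ℕ) : ‖bb (pp k)‖ ^ 2 ≤
    (2 * π) ^ 2 * (∑' j : ℕ, ((j : ℝ) / 2 ^ j) ^ 2) * (1 / 4) ^ k := by
  rw [norm_bb]
  have h1 : ∀ j, ‖bb (pp k) j‖ ^ 2 ≤ (2 * π) ^ 2 * (1 / 4) ^ k * ((j : ℝ) / 2 ^ j) ^ 2 := by
    intro j
    have h2 := pow_le_pow_left₀ (norm_nonneg _) (sq_pp k j) 2
    refine (show ‖bb (pp k) j‖ ^ 2 ≤ _ from h2).trans (le_of_eq ?_)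
    have h4 : (1 / 4 : ℝ) = (1 / 2) ^ 2 := by norm_num
    have h5 : ((1 / 2 : ℝ)) ^ k = 1 / 2 ^ k := by rw [one_div, inv_pow, one_div]
    rw [h4, ← pow_mul, mul_comm 2 k, pow_mul, h5]
    ring
  have h3 : Summable fun j : ℕ => (2 * π) ^ 2 * (1 / 4) ^ k * ((j : ℝ) / 2 ^ j) ^ 2 :=
    summ.mul_left _
  calc ∑' j, ‖bb (pp k) j‖ ^ 2 ≤ ∑' j : ℕ, (2 * π) ^ 2 * (1 / 4) ^ k * ((j : ℝ) / 2 ^ j) ^ 2 :=
        Summable.tsum_le_tsum h1 (Summable.of_nonneg_of_le (fun j => by positivity) h1 h3) h3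
    _ = _ := by
      rw [tsum_mul_left]
      ring

theorem tendsto_bb_pp : Filter.Tendsto (fun k : ℕ => ‖bb (pp k)‖) Filter.atTop (nhds 0) := by
  have h1 : Filter.Tendsto (fun k : ℕ => ‖bb (pp k)‖ ^ 2) Filter.atTop (nhds 0) := by
    have h2 : Filter.Tendsto (fun k : ℕ => (2 * π) ^ 2 * (∑' j : ℕ, ((j : ℝ) / 2 ^ j) ^ 2) *
        (1 / 4) ^ k) Filter.atTop (nhds ((2 * π) ^ 2 * (∑' j : ℕ, ((j : ℝ) / 2 ^ j) ^ 2) * 0)) :=
      (tendsto_pow_atTop_nhds_zero_of_lt_one (by norm_num) (by norm_num)).const_mul _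
    rw [mul_zero] at h2
    exact squeeze_zero (fun k => by positivity) norm_bb_pp_le h2
  have h3 := h1.sqrt
  rw [Real.sqrt_zero] at h3
  refine h3.congr fun k => ?_
  rw [Real.sqrt_sq (norm_nonneg _)]

theorem norm_bb_half (j : ℕ) (hj : 1 ≤ j) : 2 * (j : ℝ) ≤ ‖bb ((2 ^ (j ^ 2 - 1) : ℕ) : ℤ)‖ := by
  have h1 : ‖bb ((2 ^ (j ^ 2 - 1) : ℕ) : ℤ) j‖ ≤ ‖bb ((2 ^ (j ^ 2 - 1) : ℕ) : ℤ)‖ :=
    lp.norm_apply_le_norm (by norm_num) _ j
  refine le_trans (le_of_eq ?_) h1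
  show 2 * (j : ℝ) = ‖sq ((2 ^ (j ^ 2 - 1) : ℕ) : ℤ) j‖
  unfold sq
  have h2 : ang ((2 ^ (j ^ 2 - 1) : ℕ) : ℤ) j = π := by
    unfold ang pp
    have h3 : (2 : ℝ) ^ (j ^ 2) = 2 ^ (j ^ 2 - 1) * 2 := by
      rw [← pow_succ]
      congr 1
      have : 1 ≤ j ^ 2 := Nat.one_le_pow _ _ hj
      omega
    push_cast
    rw [h3]
    field_simp
  rw [h2, mul_comm Complex.I, Complex.exp_pi_mul_I, norm_mul, Complex.norm_natCast]
  norm_num
  ring

end Pool.Agent.W5h40.NT
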