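import Pool.Agent.W5h40.NT.Coding
import Pool.Agent.W5h40.NT.Seq

set_option autoImplicit false

open Real Filter Topology

namespace Pool.Agent.W5h40.NT

/-- the transitive sequence -/
noncomputable def xs (n : ℤ) : ℝ := cos (log (1 + ‖bb n‖ ^ 2))

theorem xs_abs (n : ℤ) : |xs n| ≤ 1 := abs_cos_le_one _

theorem log_lip {u v : ℝ} (hu : 1 ≤ u) (hv : 1 ≤ v) : |log u - log v| ≤ |u - v| := by
  have key : ∀ {u v : ℝ}, 1 ≤ v → v ≤ u → |log u - log v| ≤ |u - v| := by
    intro u v hv huv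
    have h1 : log v ≤ log u := Real.log_le_log (by linarith) huv
    rw [abs_of_nonneg (by linarith), abs_of_nonneg (by linarith)]
    have h2 : log (u / v) ≤ u / v - 1 := Real.log_le_sub_one_of_pos
      (div_pos (by linarith) (by linarith))
    rw [Real.log_div (by linarith) (by linarith)] at h2
    have h3 : u / v - 1 ≤ u - v := by
      rw [div_sub_one (by linarith), div_le_iff₀ (by linarith)]
      nlinarith
    linarith
  rcases le_total v u with h | h
  · exact key hv h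
  · rw [abs_sub_comm, abs_sub_comm u v]
    exact key hu h

theorem xs_close (m n : ℤ) : |xs m - xs n| ≤ 2 * ‖bb (m - n)‖ := by
  unfold xs
  refine (abs_cos_sub_cos_le _ _).trans ?_
  have h1 : ∀ u : ℝ, log (1 + u ^ 2) = 2 * log (√(1 + u ^ 2)) := fun u => by
    rw [Real.log_sqrt (by positivity)]
    ring
  have h2 : ∀ u : ℝ, 1 ≤ √(1 + u ^ 2) := fun u => Real.le_sqrt_of_sq_le (by nlinarith [sq_nonneg u])
  rw [h1, h1, ← mul_sub, abs_mul, abs_of_pos (by norm_num : (0 : ℝ) < 2)]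
  refine mul_le_mul_of_nonneg_left ?_ (by norm_num)
  refine (log_lip (h2 _) (h2 _)).trans ((sqrt_lip _ _).trans ?_)
  rw [← norm_bb_sub]
  exact abs_norm_sub_norm_le _ _

theorem unbounded (R : ℝ) : ∃ t : ℕ, R ≤ ‖bb (t : ℤ)‖ := by
  obtain ⟨j, hj⟩ := exists_nat_ge (max R 1)
  have h1 : (1 : ℝ) ≤ j := (le_max_right _ _).trans hj
  have h2 := norm_bb_half j (by exact_mod_cast h1)
  exact ⟨_, ((le_max_left R 1).trans hj).trans ((by linarith : (j : ℝ) ≤ 2 * j).trans h2)⟩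

theorem near_const (θ : ℝ) (hθ : 0 ≤ θ) (N : ℕ) (ε : ℝ) (hε : 0 < ε) :
    ∃ t : ℕ, ∀ n : ℕ, n < N → |xs (n + t : ℤ) - cos θ| < ε := by
  obtain ⟨C, hC⟩ : ∃ C, C = ∑ n ∈ Finset.range N, ‖bb (n : ℤ)‖ + ‖bb 1‖ + 1 := ⟨_, rfl⟩
  have hCn : ∀ n < N, ‖bb (n : ℤ)‖ + ‖bb 1‖ ≤ C := by
    intro n hn
    have h1 : ‖bb (n : ℤ)‖ ≤ ∑ n ∈ Finset.range N, ‖bb (n : ℤ)‖ :=
      Finset.single_le_sum (f := fun n : ℕ => ‖bb (n : ℤ)‖) (fun i _ => norm_nonneg _)
      (Finset.mem_range.2 hn)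
    linarith
  have hC0 : 0 < C := by
    rw [hC]
    positivity
  obtain ⟨m, hm⟩ : ∃ m : ℕ, max (2 * C) (8 * C / ε) < m := exists_nat_gt _
  have hm1 : 2 * C < m := (le_max_left _ _).trans_lt hm
  have hm2 : 8 * C / ε < m := (le_max_right _ _).trans_lt hm
  have hm0 : (0 : ℝ) < m := lt_trans (by positivity) hm1
  have hexp : (m : ℝ) < Real.exp (2 * π * m + θ) := by
    have h1 := Real.add_one_le_exp (2 * π * m + θ)
    have h2 : (3 : ℝ) < π := Real.pi_gt_three
    nlinarith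
  obtain ⟨R, hR⟩ : ∃ R, R = √(Real.exp (2 * π * m + θ) - 1) := ⟨_, rfl⟩
  have hexp1 : 1 < Real.exp (2 * π * m + θ) := Real.one_lt_exp_iff.2 (by positivity)
  have hR0 : 0 < R := by
    rw [hR]
    exact Real.sqrt_pos.2 (by linarith)
  have hR2 : 1 + R ^ 2 = Real.exp (2 * π * m + θ) := by
    rw [hR, Real.sq_sqrt (by linarith)]
    ring
  have hRs : √(1 + R ^ 2) = Real.exp (π * m + θ / 2) := by
    rw [hR2, Real.sqrt_eq_iff_mul_self_eq (by positivity) (by positivity), ← Real.exp_add]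
    congr 1
    ring
  have hRm : (m : ℝ) ≤ √(1 + R ^ 2) := by
    rw [hRs]
    have h1 := Real.add_one_le_exp (π * m + θ / 2)
    have h2 : (3 : ℝ) < π := Real.pi_gt_three
    nlinarith
  classical
  let t := Nat.find (unbounded R)
  have ht : R ≤ ‖bb (t : ℤ)‖ := Nat.find_spec (unbounded R)
  have ht0 : t ≠ 0 := by
    intro h0
    rw [h0] at ht
    simp only [Nat.cast_zero, bb_zero, norm_zero] at ht
    linarith
  obtain ⟨s, hs⟩ := Nat.exists_eq_succ_of_ne_zero ht0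
  have hs1 : ‖bb (s : ℤ)‖ < R := by
    have := Nat.find_min (unbounded R) (m := s) (by show s < t; omega)
    exact not_le.1 this
  have ht2 : ‖bb (t : ℤ)‖ ≤ R + ‖bb 1‖ := by
    have h1 := norm_bb_sub (t : ℤ) (s : ℤ)
    have h2 : (t : ℤ) - s = 1 := by rw [hs]; push_cast; ring
    rw [h2] at h1
    have h3 := norm_sub_norm_le (bb (t : ℤ)) (bb (s : ℤ))
    linarith
  refine ⟨t, fun n hn => ?_⟩
  have h1 : |‖bb ((n : ℤ) + t)‖ - R| ≤ C := by
    have h2 : |‖bb ((n : ℤ) + t)‖ - ‖bb (t : ℤ)‖| ≤ ‖bb (n : ℤ)‖ := by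
      refine (abs_norm_sub_norm_le _ _).trans ?_
      rw [norm_bb_sub, add_sub_cancel_right]
    have h3 := hCn n hn
    rw [abs_le] at h2 ⊢
    have := norm_nonneg (bb 1)
    constructor <;> linarith [h2.1, h2.2]
  have hs0 : 0 < √(1 + R ^ 2) := Real.sqrt_pos.2 (by positivity)
  have h4 : |log (1 + ‖bb ((n : ℤ) + t)‖ ^ 2) - log (1 + R ^ 2)| ≤ 4 * (C / √(1 + R ^ 2)) := by
    refine log_sqrt_close ?_ ?_ (by positivity)
    · rw [div_le_iff₀ hs0]
      linarith
    · rw [div_mul_cancel₀ _ hs0.ne']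
      exact (sqrt_lip _ _).trans h1
  rw [hR2, Real.log_exp] at h4
  have h5 : cos θ = cos (2 * π * m + θ) := by
    rw [add_comm, mul_comm (2 * π), Real.cos_add_nat_mul_two_pi]
  rw [h5]
  unfold xs
  refine (abs_cos_sub_cos_le _ _).trans_lt (h4.trans_lt ?_)
  rw [← mul_div_assoc, div_lt_iff₀ (by rw [← hR2]; exact hs0)]
  rw [← hR2]
  rw [div_lt_iff₀ hε] at hm2
  nlinarith

/-- the orbit of the sequence -/
noncomputable def orb (t : ℕ) : ℕ → ℝ := fun n => xs (n + t : ℤ)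

attribute [local instance] PiCountable.metricSpace

theorem dist_small (ε : ℝ) (hε : 0 < ε) : ∃ K : ℕ, 1 ≤ K ∧ ∃ e : ℝ, 0 < e ∧ ∀ y y' : ℕ → ℝ,
    (∀ k < K, |y k - y' k| ≤ e) → dist y y' < ε := by
  obtain ⟨K, hK⟩ : ∃ K : ℕ, ((1 : ℝ) / 2) ^ K < ε / 4 :=
    exists_pow_lt_of_lt_one (by positivity) (by norm_num)
  refine ⟨K + 1, by omega, ε / (4 * (K + 1)), by positivity, fun y y' h => ?_⟩
  rw [PiCountable.dist_eq_tsum, ← (PiCountable.dist_summable y y').sum_add_tsum_nat_add (K + 1)]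
  have h1 : ∑ i ∈ Finset.range (K + 1), min (2⁻¹ ^ Encodable.encode i) (dist (y i) (y' i)) ≤
      ∑ _i ∈ Finset.range (K + 1), ε / (4 * (K + 1)) :=
    Finset.sum_le_sum fun i hi => (min_le_right _ _).trans (h i (Finset.mem_range.1 hi))
  rw [Finset.sum_const, Finset.card_range, nsmul_eq_mul] at h1
  have h2 : ((K + 1 : ℕ) : ℝ) * (ε / (4 * (K + 1))) = ε / 4 := by
    push_cast
    field_simp
  rw [h2] at h1
  have h3 : ∑' i, min (2⁻¹ ^ Encodable.encode (i + (K + 1))) (dist (y (i + (K + 1))) (y' (i + (K + 1))))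
      ≤ ∑' i : ℕ, ((1 : ℝ) / 2) ^ (K + 1) * (1 / 2) ^ i := by
    refine Summable.tsum_le_tsum (fun i => ?_)
      ((summable_nat_add_iff (K + 1)).2 (PiCountable.dist_summable y y'))
      (summable_geometric_two.mul_left _)
    refine (min_le_left _ _).trans (le_of_eq ?_)
    rw [← pow_add, Encodable.encode_nat, one_div, add_comm i]
  rw [tsum_mul_left, tsum_geometric_two] at h3
  have h4 : ((1 : ℝ) / 2) ^ (K + 1) * 2 = (1 / 2) ^ K := by
    rw [pow_succ]
    ring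
  rw [h4] at h3
  linarith

/-- the shift of sequences -/
def shf (y : ℕ → ℝ) : ℕ → ℝ := fun n => y (n + 1)

theorem shf_orb (t : ℕ) : shf (orb t) = orb (t + 1) := by
  funext n
  show xs _ = xs _
  congr 1
  push_cast
  ring

theorem continuous_shf : Continuous shf := continuous_pi fun n => continuous_apply (n + 1)

theorem shf_mem {y : ℕ → ℝ} (hy : y ∈ closure (Set.range orb)) :
    shf y ∈ closure (Set.range orb) :=
  map_mem_closure continuous_shf hy (by
    rintro _ ⟨t, rfl⟩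
    exact ⟨t + 1, (shf_orb t).symm⟩)

/-- the space -/
abbrev XX : Type := closure (Set.range orb)

noncomputable def TT (y : XX) : XX := ⟨shf y.1, shf_mem y.2⟩

theorem continuous_TT : Continuous TT :=
  (continuous_shf.comp continuous_subtype_val).subtype_mk _

theorem TT_iter (m : ℕ) (y : XX) : (TT^[m] y).1 = fun n => y.1 (n + m) := by
  induction m with
  | zero => rfl
  | succ m ih =>
    rw [Function.iterate_succ_apply']
    show shf (TT^[m] y).1 = _
    rw [ih]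
    funext n
    unfold shf
    show y.1 (n + 1 + m) = y.1 (n + (m + 1))
    rw [show n + 1 + m = n + (m + 1) by omega]

instance : CompactSpace XX := by
  rw [← isCompact_iff_compactSpace]
  have h1 : IsCompact (Set.pi Set.univ fun _ : ℕ => Set.Icc (-1 : ℝ) 1) :=
    isCompact_univ_pi fun _ => isCompact_Icc
  refine h1.of_isClosed_subset isClosed_closure ?_
  refine closure_minimal ?_ h1.isClosed
  rintro _ ⟨t, rfl⟩ n _
  exact abs_le.1 (xs_abs _)

/-- points of the space are approximated by the orbit -/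
theorem exists_approx (y : XX) (S : Finset ℕ) (ε : ℝ) (hε : 0 < ε) :
    ∃ t : ℕ, ∀ n ∈ S, |y.1 n - orb t n| < ε := by
  have h1 : IsOpen {w : ℕ → ℝ | ∀ n ∈ S, |y.1 n - w n| < ε} := by
    have : {w : ℕ → ℝ | ∀ n ∈ S, |y.1 n - w n| < ε} =
        ⋂ n ∈ S, {w : ℕ → ℝ | |y.1 n - w n| < ε} := by
      ext w
      simp
    rw [this]
    refine isOpen_biInter_finset fun n _ => ?_
    exact isOpen_lt (continuous_const.sub (continuous_apply n)).abs continuous_const
  obtain ⟨w, hw, t, ht⟩ := mem_closure_iff.1 y.2 _ h1 (fun n _ => by simpa using hε)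
  exact ⟨t, by rw [ht]; exact hw⟩

noncomputable def orbX (t : ℕ) : XX := ⟨orb t, subset_closure ⟨t, rfl⟩⟩

theorem TT_orbX (m t : ℕ) : TT^[m] (orbX t) = orbX (t + m) := by
  apply Subtype.ext
  rw [TT_iter]
  funext n
  show xs _ = xs _
  congr 1
  push_cast
  ring

theorem orb_dense (U : Set XX) (hU : IsOpen U) (hne : U.Nonempty) : ∃ t, orbX t ∈ U := by
  obtain ⟨V, hV, rfl⟩ := isOpen_induced_iff.1 hU
  obtain ⟨y, hy⟩ := hne
  obtain ⟨w, hw, t, ht⟩ := mem_closure_iff.1 y.2 V hV hy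
  exact ⟨t, by show orb t ∈ V; rw [ht]; exact hw⟩

theorem recurrent (t : ℕ) : Tendsto (fun k => orbX (t + pp k)) atTop (𝓝 (orbX t)) := by
  rw [tendsto_subtype_rng]
  show Tendsto (fun k => orb (t + pp k)) atTop (𝓝 (orb t))
  rw [tendsto_pi_nhds]
  intro n
  rw [tendsto_iff_dist_tendsto_zero]
  have h1 : ∀ k, dist (orb (t + pp k) n) (orb t n) ≤ 2 * ‖bb (pp k)‖ := by
    intro k
    rw [Real.dist_eq]
    refine (xs_close _ _).trans (le_of_eq ?_)
    congr 3
    push_cast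
    ring
  refine squeeze_zero (fun _ => dist_nonneg) h1 ?_
  have := tendsto_bb_pp.const_mul 2
  rwa [mul_zero] at this

theorem pp_tendsto : Tendsto pp atTop atTop := by
  refine tendsto_atTop_mono (fun k => ?_) tendsto_id
  show k ≤ 2 ^ (k ^ 2)
  have h1 : k < 2 ^ k := Nat.lt_two_pow_self
  have h2 : 2 ^ k ≤ 2 ^ (k ^ 2) := Nat.pow_le_pow_right (by norm_num) (Nat.le_self_pow (by norm_num) k)
  omega

theorem transitive (U V : Set XX) (hU : IsOpen U) (hV : IsOpen V) (hUn : U.Nonempty)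
    (hVn : V.Nonempty) : ∃ n : ℕ, 1 ≤ n ∧ (V ∩ TT^[n] ⁻¹' U).Nonempty := by
  obtain ⟨t, ht⟩ := orb_dense U hU hUn
  obtain ⟨s, hs⟩ := orb_dense V hV hVn
  have h1 : ∀ᶠ k in atTop, orbX (t + pp k) ∈ U := (recurrent t).eventually (hU.mem_nhds ht)
  have h2 : ∀ᶠ k in atTop, s + 1 ≤ pp k := pp_tendsto.eventually_ge_atTop (s + 1)
  obtain ⟨k, hk1, hk2⟩ := (h1.and h2).exists
  refine ⟨t + pp k - s, by omega, orbX s, hs, ?_⟩
  show TT^[t + pp k - s] (orbX s) ∈ U
  rw [TT_orbX]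
  have : s + (t + pp k - s) = t + pp k := by omega
  rw [this]
  exact hk1

/-- the constant sequences `cos θ` are in the space -/
theorem const_mem (θ : ℝ) (hθ : 0 ≤ θ) : (fun _ => cos θ) ∈ closure (Set.range orb) := by
  rw [Metric.mem_closure_range_iff]
  intro ε hε
  obtain ⟨K, hK, e, he, h⟩ := dist_small ε hε
  obtain ⟨t, ht⟩ := near_const θ hθ K e he
  refine ⟨t, h _ _ fun k hk => ?_⟩
  rw [abs_sub_comm]
  exact (ht k hk).le

noncomputable def cst (θ : ℝ) (hθ : 0 ≤ θ) : XX := ⟨fun _ => cos θ, const_mem θ hθ⟩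

theorem TT_cst (m : ℕ) (θ : ℝ) (hθ : 0 ≤ θ) : TT^[m] (cst θ hθ) = cst θ hθ := by
  apply Subtype.ext
  rw [TT_iter]
  rfl

/-- polynomially many patterns -/
theorem null (a : ℕ → ℕ) (ε : ℝ) (hε : 0 < ε) (δ : ℝ) (hδ : 0 < δ) :
    ∀ᶠ n in atTop, ∀ F : Finset XX,
      (∀ x ∈ F, ∀ y ∈ F, x ≠ y → ∃ i < n, ε ≤ dist (TT^[a i] x) (TT^[a i] y)) →
      (F.card : ℝ) ≤ Real.exp (δ * n) := by
  obtain ⟨L, hL, e, he, hd⟩ := dist_small ε hε
  obtain ⟨e', he'⟩ : ∃ e', e' = min 1 (e / 3) := ⟨_, rfl⟩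
  have pe' : 0 < e' := by rw [he']; exact lt_min one_pos (by positivity)
  have pe1 : e' ≤ 1 := by rw [he']; exact min_le_left _ _
  have pe2 : e' ≤ e / 3 := by rw [he']; exact min_le_right _ _
  obtain ⟨P, M, K, hcode⟩ := coding (H := lp (fun _ : ℕ => ℂ) 2) e' pe' pe1
  -- the bound for the cardinality
  have hcard : ∀ n : ℕ, 1 ≤ n → ∀ F : Finset XX,
      (∀ x ∈ F, ∀ y ∈ F, x ≠ y → ∃ i < n, ε ≤ dist (TT^[a i] x) (TT^[a i] y)) →
      F.card ≤ (n * L) * ((n * L * P + 1) * (M * (n * L * 2 + 1) ^ K)) := by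
    intro n hn F hF
    have : Nonempty (Fin n × Fin L) := ⟨(⟨0, by omega⟩, ⟨0, by omega⟩)⟩
    obtain ⟨code, hc⟩ := hcode (Fin n × Fin L) fun q => bb ((a q.1 + q.2 : ℕ) : ℤ)
    have happ : ∀ y : XX, ∃ t : ℕ, ∀ q : Fin n × Fin L,
        |y.1 (a q.1 + q.2) - orb t (a q.1 + q.2)| < e / 3 := by
      intro y
      obtain ⟨t, ht⟩ := exists_approx y
        (Finset.univ.image fun q : Fin n × Fin L => a q.1 + q.2) (e / 3) (by positivity)
      exact ⟨t, fun q => ht _ (Finset.mem_image_of_mem _ (Finset.mem_univ q))⟩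
    choose τ hτ using happ
    have hinj : Set.InjOn (fun y : XX => code (bb (-(τ y : ℤ)))) (F : Set XX) := by
      intro x hx y hy hxy
      by_contra hne
      obtain ⟨i, hi, hdist⟩ := hF x hx y hy hne
      have h1 := hc _ _ hxy
      have h2 : dist (TT^[a i] x) (TT^[a i] y) < ε := by
        rw [Subtype.dist_eq, TT_iter, TT_iter]
        refine hd _ _ fun k hk => ?_
        have h3 := h1 (⟨i, hi⟩, ⟨k, hk⟩)
        have h4 := hτ x (⟨i, hi⟩, ⟨k, hk⟩)
        have h5 := hτ y (⟨i, hi⟩, ⟨k, hk⟩)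
        simp only [norm_bb_sub, sub_neg_eq_add] at h3 h4 h5
        have h6 : ∀ t : ℕ, cos (log (1 + ‖bb (((a i + k : ℕ) : ℤ) + (t : ℤ))‖ ^ 2)) =
            orb t (a i + k) := fun t => rfl
        rw [h6, h6] at h3
        simp only [add_comm k (a i)]
        rw [abs_lt] at h4 h5
        rw [abs_le] at h3 ⊢
        constructor <;> linarith [h3.1, h3.2, h4.1, h4.2, h5.1, h5.2]
      linarith
    have h1 := Finset.card_le_card_of_injOn (s := F) (t := Finset.univ) _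
      (fun _ _ => Finset.mem_coe.2 (Finset.mem_univ _)) hinj
    refine h1.trans (le_of_eq ?_)
    rw [Finset.card_univ]
    simp only [Fintype.card_prod, Fintype.card_fin, Fintype.card_fun, Fintype.card_option,
      Fintype.card_bool]
  -- asymptotics
  have hlit := isLittleO_pow_exp_pos_mul_atTop (K + 2) hδ
  obtain ⟨C, hC⟩ : ∃ C : ℝ, C = L * ((L * P + 1) * (M * (L * 2 + 1) ^ K)) := ⟨_, rfl⟩
  have hC0 : 0 ≤ C := by rw [hC]; positivity
  have h1 := hlit.def (c := 1 / (C + 1)) (by positivity)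
  have h2 := tendsto_natCast_atTop_atTop.eventually h1
  filter_upwards [h2, eventually_ge_atTop 1] with n hn hn1 F hF
  have h3 := hcard n hn1 F hF
  have h4 : ((n * L) * ((n * L * P + 1) * (M * (n * L * 2 + 1) ^ K)) : ℝ) ≤
      C * (n : ℝ) ^ (K + 2) := by
    have hn' : (1 : ℝ) ≤ n := by exact_mod_cast hn1
    have h5 : (n * L * P + 1 : ℝ) ≤ n * (L * P + 1) := by nlinarith [hn']
    have h6 : (n * L * 2 + 1 : ℝ) ≤ n * (L * 2 + 1) := by nlinarith [hn']
    have h7 : (n * L * 2 + 1 : ℝ) ^ K ≤ (n * (L * 2 + 1)) ^ K :=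
      pow_le_pow_left₀ (by positivity) h6 K
    calc ((n * L) * ((n * L * P + 1) * (M * (n * L * 2 + 1) ^ K)) : ℝ)
        ≤ (n * L) * ((n * (L * P + 1)) * (M * (n * (L * 2 + 1)) ^ K)) := by
          gcongr
      _ = C * (n : ℝ) ^ (K + 2) := by
          rw [hC, mul_pow]
          ring
  have h5 : (F.card : ℝ) ≤ C * (n : ℝ) ^ (K + 2) := by
    refine le_trans ?_ h4
    exact_mod_cast h3
  refine h5.trans ?_
  rw [Real.norm_of_nonneg (by positivity), Real.norm_of_nonneg (Real.exp_pos _).le] at hn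
  rw [one_div, inv_mul_eq_div, le_div_iff₀ (by positivity)] at hn
  have : 0 ≤ (n : ℝ) ^ (K + 2) := by positivity
  nlinarith

/-- the system is not mean equicontinuous -/
theorem not_mean_equi : ¬ (∀ ε : ℝ, 0 < ε → ∃ δ : ℝ, 0 < δ ∧ ∀ x y : XX, dist x y < δ →
    ∀ᶠ n in atTop, (∑ i ∈ Finset.range n, dist (TT^[i] x) (TT^[i] y)) / (n : ℝ) < ε) := by
  intro h
  have hne : cst 0 le_rfl ≠ cst π Real.pi_pos.le := by
    intro h0
    have h1 := congrFun (congrArg Subtype.val h0) 0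
    change cos 0 = cos π at h1
    rw [Real.cos_zero, Real.cos_pi] at h1
    norm_num at h1
  obtain ⟨D, hD⟩ : ∃ D, D = dist (cst 0 le_rfl) (cst π Real.pi_pos.le) := ⟨_, rfl⟩
  have pD : 0 < D := by rw [hD]; exact dist_pos.2 hne
  obtain ⟨δ, hδ, h⟩ := h (D / 4) (by positivity)
  -- for both constants the transitive point is close in the mean
  have key : ∀ (θ : ℝ) (hθ : 0 ≤ θ), ∀ᶠ n in atTop,
      (∑ i ∈ Finset.range n, dist (TT^[i] (orbX 0)) (cst θ hθ)) / (n : ℝ) < D / 2 := by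
    intro θ hθ
    obtain ⟨t, ht⟩ := orb_dense (Metric.ball (cst θ hθ) δ) Metric.isOpen_ball
      ⟨_, Metric.mem_ball_self hδ⟩
    have h1 := h _ _ (Metric.mem_ball.1 ht)
    obtain ⟨S, hS⟩ : ∃ S : ℝ, S = ∑ i ∈ Finset.range t, dist (TT^[i] (orbX 0)) (cst θ hθ) :=
      ⟨_, rfl⟩
    have hS0 : 0 ≤ S := by rw [hS]; exact Finset.sum_nonneg fun _ _ => dist_nonneg
    have h2 : ∀ᶠ n : ℕ in atTop, S / (n : ℝ) < D / 4 :=
      (tendsto_const_div_atTop_nhds_zero_nat S).eventually (gt_mem_nhds (by positivity))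
    filter_upwards [h1, h2, eventually_ge_atTop 1] with n hn1 hn2 hn3
    have hn' : (0 : ℝ) < n := by exact_mod_cast hn3
    have h3 : ∑ i ∈ Finset.range n, dist (TT^[i] (orbX 0)) (cst θ hθ) ≤
        S + ∑ i ∈ Finset.range n, dist (TT^[i] (orbX t)) (TT^[i] (cst θ hθ)) := by
      calc ∑ i ∈ Finset.range n, dist (TT^[i] (orbX 0)) (cst θ hθ)
          ≤ ∑ i ∈ Finset.range (t + n), dist (TT^[i] (orbX 0)) (cst θ hθ) :=
            Finset.sum_le_sum_of_subset_of_nonneg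
              (Finset.range_mono (by omega)) fun _ _ _ => dist_nonneg
        _ = S + ∑ i ∈ Finset.range n, dist (TT^[t + i] (orbX 0)) (cst θ hθ) := by
            rw [Finset.sum_range_add, hS]
        _ = _ := by
            congr 1
            refine Finset.sum_congr rfl fun i _ => ?_
            rw [TT_orbX, TT_orbX, TT_cst]
            congr 2
            omega
    rw [div_lt_iff₀ hn'] at hn1 hn2 ⊢
    linarith
  have k0 := key 0 le_rfl
  have k1 := key π Real.pi_pos.le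
  obtain ⟨n, ⟨hn0, hn1⟩, hn2⟩ := ((k0.and k1).and (eventually_ge_atTop 1)).exists
  have hn' : (0 : ℝ) < n := by exact_mod_cast hn2
  rw [div_lt_iff₀ hn'] at hn0 hn1
  have h5 : ∑ _i ∈ Finset.range n, D ≤
      ∑ i ∈ Finset.range n, (dist (TT^[i] (orbX 0)) (cst 0 le_rfl) +
        dist (TT^[i] (orbX 0)) (cst π Real.pi_pos.le)) := by
    refine Finset.sum_le_sum fun i _ => ?_
    rw [hD]
    exact dist_triangle_left _ _ _
  rw [Finset.sum_add_distrib, Finset.sum_const, Finset.card_range, nsmul_eq_mul] at h5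
  linarith

end Pool.Agent.W5h40.NT
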