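import Mathlib

set_option autoImplicit false

open Real

namespace Pool.Agent.W5h40.NT

variable {H : Type} [NormedAddCommGroup H] [InnerProductSpace ℝ H]

/-- value of a code letter -/
def letter {ι : Type} (Y : ι → H) : Option (ι × Bool) → H
  | none => 0
  | some (i, true) => Y i
  | some (i, false) => - Y i

theorem perceptron {ι : Type} (Y : ι → H) (hY : ∀ i, ‖Y i‖ ≤ 1) (e : ℝ) (he : 0 < e) :
    ∀ (k : ℕ) (v : H), ‖v‖ ^ 2 ≤ k * e ^ 2 →
      ∃ w : Fin k → Option (ι × Bool),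
        ∀ i, |inner ℝ (Y i) (v - ∑ j, e • letter Y (w j))| ≤ e := by
  intro k
  induction k with
  | zero =>
    intro v hv
    have hv0 : v = 0 := by
      have : ‖v‖ ^ 2 ≤ 0 := by simpa using hv
      have h2 : ‖v‖ = 0 := by nlinarith [norm_nonneg v]
      exact norm_eq_zero.1 h2
    refine ⟨fun _ => none, fun i => ?_⟩
    simp [hv0, he.le]
  | succ k ih =>
    intro v hv
    by_cases h : ∀ i, |inner ℝ (Y i) v| ≤ e
    · refine ⟨fun _ => none, fun i => ?_⟩
      simpa [letter] using h i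
    · push Not at h
      obtain ⟨i, hi⟩ := h
      have hYi := hY i
      have hYi2 : ‖Y i‖ ^ 2 ≤ 1 := by nlinarith [norm_nonneg (Y i)]
      rcases le_total 0 (inner ℝ (Y i) v) with hs | hs
      · rw [abs_of_nonneg hs] at hi
        have h1 : ‖v - e • Y i‖ ^ 2 ≤ k * e ^ 2 := by
          rw [norm_sub_sq_real, inner_smul_right, norm_smul, Real.norm_eq_abs, abs_of_pos he,
            real_inner_comm]
          push_cast at hv
          nlinarith [mul_pos he he]
        obtain ⟨w, hw⟩ := ih _ h1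
        refine ⟨Fin.cons (some (i, true)) w, fun l => ?_⟩
        rw [Fin.sum_univ_succ]
        simp only [Fin.cons_zero, Fin.cons_succ, letter]
        have := hw l
        rwa [sub_sub] at this
      · rw [abs_of_nonpos hs] at hi
        have h1 : ‖v + e • Y i‖ ^ 2 ≤ k * e ^ 2 := by
          rw [norm_add_sq_real, inner_smul_right, norm_smul, Real.norm_eq_abs, abs_of_pos he,
            real_inner_comm]
          push_cast at hv
          nlinarith [mul_pos he he]
        obtain ⟨w, hw⟩ := ih _ h1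
        refine ⟨Fin.cons (some (i, false)) w, fun l => ?_⟩
        rw [Fin.sum_univ_succ]
        simp only [Fin.cons_zero, Fin.cons_succ, letter]
        have := hw l
        rw [smul_neg, neg_add_eq_sub, ← sub_add, sub_add_eq_add_sub]
        exact this

theorem log_close {a b c : ℝ} (ha : 0 < a) (hb : 0 < b) (hc : c ≤ 1 / 2)
    (h : |a - b| ≤ c * max a b) : |log a - log b| ≤ 2 * c := by
  have key : ∀ {a b : ℝ}, 0 < a → 0 < b → b ≤ a → a - b ≤ c * a → |log a - log b| ≤ 2 * c := by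
    intro a b ha hb hab h
    have h0 : 0 ≤ c := by
      by_contra hcon
      push Not at hcon
      nlinarith
    have h1 : log b ≤ log a := Real.log_le_log hb hab
    rw [abs_of_nonneg (by linarith)]
    have h2 : log (a / b) ≤ a / b - 1 := Real.log_le_sub_one_of_pos (div_pos ha hb)
    rw [Real.log_div ha.ne' hb.ne'] at h2
    have h3 : a / b ≤ 1 + 2 * c := by
      rw [div_le_iff₀ hb]
      nlinarith
    linarith
  rcases le_total b a with hab | hab
  · rw [max_eq_left hab, abs_of_nonneg (by linarith)] at h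
    exact key ha hb hab h
  · rw [max_eq_right hab, abs_of_nonpos (by linarith)] at h
    rw [abs_sub_comm]
    exact key hb ha hab (by linarith)

/-- `√(1 + a²)` is `1`-Lipschitz. -/
theorem sqrt_lip (a b : ℝ) : |√(1 + a ^ 2) - √(1 + b ^ 2)| ≤ |a - b| := by
  have ha : 0 < √(1 + a ^ 2) := Real.sqrt_pos.2 (by positivity)
  have hb : 0 < √(1 + b ^ 2) := Real.sqrt_pos.2 (by positivity)
  have ha2 : √(1 + a ^ 2) ^ 2 = 1 + a ^ 2 := Real.sq_sqrt (by positivity)
  have hb2 : √(1 + b ^ 2) ^ 2 = 1 + b ^ 2 := Real.sq_sqrt (by positivity)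
  have ha3 : |a| ≤ √(1 + a ^ 2) := Real.le_sqrt_of_sq_le (by rw [sq_abs]; linarith)
  have hb3 : |b| ≤ √(1 + b ^ 2) := Real.le_sqrt_of_sq_le (by rw [sq_abs]; linarith)
  generalize √(1 + a ^ 2) = A at *
  generalize √(1 + b ^ 2) = B at *
  have h1 : |A - B| * (A + B) = |a - b| * |a + b| := by
    have e1 : A + B = |A + B| := (abs_of_pos (add_pos ha hb)).symm
    rw [e1, ← abs_mul, ← abs_mul]
    congr 1
    nlinarith
  have h2 : |a + b| ≤ A + B := (abs_add_le a b).trans (add_le_add ha3 hb3)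
  have h3 : |A - B| * (A + B) ≤ |a - b| * (A + B) := by
    rw [h1]
    exact mul_le_mul_of_nonneg_left h2 (abs_nonneg _)
  exact le_of_mul_le_mul_right h3 (add_pos ha hb)

/-- the middle estimate, for real numbers -/
theorem est_real {A B B' g g' p p' η e : ℝ} (pA : 0 < A) (pB : 0 < B) (pB' : 0 < B')
    (he : 0 ≤ e) (hη : 0 ≤ η) (hc : 5 * η + 8 * e ≤ 1 / 2)
    (gB : B ^ 2 ≤ g) (gB' : B' ^ 2 ≤ g') (gA : A ^ 2 ≤ 4 * g) (gA' : A ^ 2 ≤ 4 * g')
    (eg : g = A ^ 2 + B ^ 2 - 1 - 2 * (A * B * p))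
    (eg' : g' = A ^ 2 + B' ^ 2 - 1 - 2 * (A * B' * p'))
    (hpp : |p - p'| ≤ 2 * e) (hp'1 : |p'| ≤ 1)
    (hlog : |log (B ^ 2) - log (B' ^ 2)| ≤ η) :
    |log g - log g'| ≤ 10 * η + 16 * e := by
  have q1 : 0 < B ^ 2 := by positivity
  have q2 : 0 < B' ^ 2 := by positivity
  have pg : 0 < g := lt_of_lt_of_le q1 gB
  have pg' : 0 < g' := lt_of_lt_of_le q2 gB'
  have AB : A * B ≤ 2 * g := by
    have h1 : (A * B) ^ 2 ≤ (2 * g) ^ 2 := by
      have : A ^ 2 * B ^ 2 ≤ 4 * g * g := mul_le_mul gA gB (by positivity) (by positivity)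
      nlinarith
    exact abs_le_of_sq_le_sq' h1 (by positivity) |>.2
  have AB' : A * B' ≤ 2 * g' := by
    have h1 : (A * B') ^ 2 ≤ (2 * g') ^ 2 := by
      have : A ^ 2 * B' ^ 2 ≤ 4 * g' * g' := mul_le_mul gA' gB' (by positivity) (by positivity)
      nlinarith
    exact abs_le_of_sq_le_sq' h1 (by positivity) |>.2
  -- closeness of the squares
  have hb : |B ^ 2 - B' ^ 2| ≤ η * max (B ^ 2) (B' ^ 2) := by
    rcases le_total (B' ^ 2) (B ^ 2) with hh | hh
    · rw [max_eq_left hh, abs_of_nonneg (by linarith)]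
      have h1 : log (B' ^ 2 / B ^ 2) ≥ - η := by
        rw [Real.log_div q2.ne' q1.ne']
        have := (abs_le.1 hlog).2
        linarith
      have h2 := Real.log_le_sub_one_of_pos (div_pos q2 q1)
      have h3 : 1 - η ≤ B' ^ 2 / B ^ 2 := by linarith
      rw [le_div_iff₀ q1] at h3
      linarith
    · rw [max_eq_right hh, abs_of_nonpos (by linarith)]
      have h1 : log (B ^ 2 / B' ^ 2) ≥ - η := by
        rw [Real.log_div q1.ne' q2.ne']
        have := (abs_le.1 hlog).1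
        linarith
      have h2 := Real.log_le_sub_one_of_pos (div_pos q1 q2)
      have h3 : 1 - η ≤ B ^ 2 / B' ^ 2 := by linarith
      rw [le_div_iff₀ q2] at h3
      linarith
  have hbb : |B - B'| ≤ η * max B B' := by
    have h1 : |B - B'| * (B + B') ≤ (η * max B B') * (B + B') := by
      have e1 : |B - B'| * (B + B') = |B ^ 2 - B' ^ 2| := by
        have e0 : B + B' = |B + B'| := (abs_of_pos (add_pos pB pB')).symm
        rw [e0, ← abs_mul]
        congr 1
        ring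
      rw [e1]
      refine hb.trans ?_
      rw [mul_assoc]
      refine mul_le_mul_of_nonneg_left ?_ hη
      rcases le_total B' B with hh | hh
      · rw [max_eq_left hh, max_eq_left (by nlinarith)]
        nlinarith
      · rw [max_eq_right hh, max_eq_right (by nlinarith)]
        nlinarith
    exact le_of_mul_le_mul_right h1 (add_pos pB pB')
  have hmain : |g - g'| ≤ (5 * η + 8 * e) * max g g' := by
    have e1 : g - g' = (B ^ 2 - B' ^ 2) - 2 * A * (B - B') * p' - 2 * (A * B) * (p - p') := by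
      rw [eg, eg']
      ring
    have m1 : |B ^ 2 - B' ^ 2| ≤ η * max g g' :=
      hb.trans (mul_le_mul_of_nonneg_left (max_le_max gB gB') hη)
    have m2 : |2 * A * (B - B') * p'| ≤ 4 * η * max g g' := by
      rw [abs_mul, abs_mul, abs_of_pos (by positivity : 0 < 2 * A)]
      have h1 : 2 * A * |B - B'| ≤ 2 * A * (η * max B B') :=
        mul_le_mul_of_nonneg_left hbb (by positivity)
      have h2 : A * max B B' ≤ 2 * max g g' := by
        rcases le_total B' B with hh | hh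
        · rw [max_eq_left hh]
          exact AB.trans (mul_le_mul_of_nonneg_left (le_max_left _ _) (by norm_num))
        · rw [max_eq_right hh]
          exact AB'.trans (mul_le_mul_of_nonneg_left (le_max_right _ _) (by norm_num))
      have h3 : 2 * A * |B - B'| ≤ 4 * η * max g g' := by
        refine h1.trans ?_
        have e2 : 2 * A * (η * max B B') = 2 * η * (A * max B B') := by ring
        rw [e2]
        have := mul_le_mul_of_nonneg_left h2 (by positivity : 0 ≤ 2 * η)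
        linarith
      calc 2 * A * |B - B'| * |p'| ≤ 2 * A * |B - B'| * 1 :=
            mul_le_mul_of_nonneg_left hp'1 (by positivity)
        _ = 2 * A * |B - B'| := mul_one _
        _ ≤ _ := h3
    have m3 : |2 * (A * B) * (p - p')| ≤ 8 * e * max g g' := by
      rw [abs_mul, abs_of_pos (by positivity : 0 < 2 * (A * B))]
      calc 2 * (A * B) * |p - p'| ≤ 2 * (2 * g) * (2 * e) := by
            refine mul_le_mul ?_ hpp (abs_nonneg _) (by positivity)
            linarith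
        _ = 8 * e * g := by ring
        _ ≤ 8 * e * max g g' := mul_le_mul_of_nonneg_left (le_max_left _ _) (by positivity)
    rw [e1]
    have t1 := abs_sub (B ^ 2 - B' ^ 2 - 2 * A * (B - B') * p') (2 * (A * B) * (p - p'))
    have t2 := abs_sub (B ^ 2 - B' ^ 2) (2 * A * (B - B') * p')
    linarith
  have := log_close pg pg' hc hmain
  linarith

/-- the middle estimate -/
theorem est_mid {a z z' : H} {η e : ℝ} (he : 0 ≤ e) (hη : 0 ≤ η)
    (hc : 5 * η + 8 * e ≤ 1 / 2)
    (hz : ‖z‖ ≤ ‖a - z‖) (hz' : ‖z'‖ ≤ ‖a - z'‖)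
    (hin : |inner ℝ ((√(1 + ‖a‖ ^ 2))⁻¹ • a)
      ((√(1 + ‖z‖ ^ 2))⁻¹ • z - (√(1 + ‖z'‖ ^ 2))⁻¹ • z')| ≤ 2 * e)
    (hlog : |log (1 + ‖z‖ ^ 2) - log (1 + ‖z'‖ ^ 2)| ≤ η) :
    |log (1 + ‖a - z‖ ^ 2) - log (1 + ‖a - z'‖ ^ 2)| ≤ 10 * η + 16 * e := by
  obtain ⟨A, hA⟩ : ∃ A, A = √(1 + ‖a‖ ^ 2) := ⟨_, rfl⟩
  obtain ⟨B, hB⟩ : ∃ B, B = √(1 + ‖z‖ ^ 2) := ⟨_, rfl⟩
  obtain ⟨B', hB'⟩ : ∃ B', B' = √(1 + ‖z'‖ ^ 2) := ⟨_, rfl⟩
  have pA : 0 < A := by rw [hA]; exact Real.sqrt_pos.2 (by positivity)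
  have pB : 0 < B := by rw [hB]; exact Real.sqrt_pos.2 (by positivity)
  have pB' : 0 < B' := by rw [hB']; exact Real.sqrt_pos.2 (by positivity)
  have A2 : A ^ 2 = 1 + ‖a‖ ^ 2 := by rw [hA]; exact Real.sq_sqrt (by positivity)
  have B2 : B ^ 2 = 1 + ‖z‖ ^ 2 := by rw [hB]; exact Real.sq_sqrt (by positivity)
  have B2' : B' ^ 2 = 1 + ‖z'‖ ^ 2 := by rw [hB']; exact Real.sq_sqrt (by positivity)
  rw [← hA, ← hB, ← hB', inner_sub_right] at hin
  rw [← B2, ← B2'] at hlog
  have i1 : inner ℝ a z = A * B * inner ℝ (A⁻¹ • a) (B⁻¹ • z) := by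
    rw [real_inner_smul_left, real_inner_smul_right]
    field_simp
  have i2 : inner ℝ a z' = A * B' * inner ℝ (A⁻¹ • a) (B'⁻¹ • z') := by
    rw [real_inner_smul_left, real_inner_smul_right]
    field_simp
  have hA1 : ‖a‖ ≤ A := by rw [hA]; exact Real.le_sqrt_of_sq_le (by linarith)
  have hB1 : ‖z'‖ ≤ B' := by rw [hB']; exact Real.le_sqrt_of_sq_le (by linarith)
  refine est_real pA pB pB' he hη hc (g := 1 + ‖a - z‖ ^ 2) (g' := 1 + ‖a - z'‖ ^ 2)
    (p := inner ℝ (A⁻¹ • a) (B⁻¹ • z)) (p' := inner ℝ (A⁻¹ • a) (B'⁻¹ • z'))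
    ?_ ?_ ?_ ?_ ?_ ?_ hin ?_ hlog
  · rw [B2]
    have := norm_nonneg z
    nlinarith
  · rw [B2']
    have := norm_nonneg z'
    nlinarith
  · rw [A2]
    have h1 : ‖a‖ ≤ 2 * ‖a - z‖ := by
      have : ‖a‖ ≤ ‖a - z‖ + ‖z‖ := by
        calc ‖a‖ = ‖(a - z) + z‖ := by rw [sub_add_cancel]
          _ ≤ _ := norm_add_le _ _
      linarith
    have := norm_nonneg a
    nlinarith
  · rw [A2]
    have h1 : ‖a‖ ≤ 2 * ‖a - z'‖ := by
      have : ‖a‖ ≤ ‖a - z'‖ + ‖z'‖ := by
        calc ‖a‖ = ‖(a - z') + z'‖ := by rw [sub_add_cancel]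
          _ ≤ _ := norm_add_le _ _
      linarith
    have := norm_nonneg a
    nlinarith
  · rw [norm_sub_sq_real, A2, B2, i1]
    ring
  · rw [norm_sub_sq_real, A2, B2', i2]
    ring
  · have h1 : |inner ℝ (A⁻¹ • a) (B'⁻¹ • z')| ≤ ‖A⁻¹ • a‖ * ‖B'⁻¹ • z'‖ :=
      abs_real_inner_le_norm _ _
    have h2 : ‖A⁻¹ • a‖ ≤ 1 := by
      rw [norm_smul, norm_inv, Real.norm_eq_abs, abs_of_pos pA, inv_mul_le_iff₀ pA, mul_one]
      exact hA1
    have h3 : ‖B'⁻¹ • z'‖ ≤ 1 := by
      rw [norm_smul, norm_inv, Real.norm_eq_abs, abs_of_pos pB', inv_mul_le_iff₀ pB', mul_one]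
      exact hB1
    calc _ ≤ _ := h1
      _ ≤ 1 * 1 := mul_le_mul h2 h3 (norm_nonneg _) zero_le_one
      _ = 1 := one_mul 1

end Pool.Agent.W5h40.NT
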