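import Pool.Agent.W5h40.NT.Code

set_option autoImplicit false

open Real

namespace Pool.Agent.W5h40.NT

variable {H : Type} [NormedAddCommGroup H] [InnerProductSpace ℝ H]

theorem log_sqrt_close {u v c : ℝ} (hc : c ≤ 1 / 2)
    (h : |√(1 + u ^ 2) - √(1 + v ^ 2)| ≤ c * √(1 + v ^ 2)) (hc0 : 0 ≤ c) :
    |log (1 + u ^ 2) - log (1 + v ^ 2)| ≤ 4 * c := by
  have pu : 0 < √(1 + u ^ 2) := Real.sqrt_pos.2 (by positivity)
  have pv : 0 < √(1 + v ^ 2) := Real.sqrt_pos.2 (by positivity)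
  have h1 := log_close pu pv hc (h.trans (mul_le_mul_of_nonneg_left (le_max_right _ _) hc0))
  rw [Real.log_sqrt (by positivity), Real.log_sqrt (by positivity)] at h1
  have e1 : log (1 + u ^ 2) / 2 - log (1 + v ^ 2) / 2 = (log (1 + u ^ 2) - log (1 + v ^ 2)) / 2 := by
    ring
  rw [e1, abs_div, abs_of_pos (by norm_num : (0 : ℝ) < 2)] at h1
  linarith

/-- `√(1 + u²) = exp (log (1 + u²) / 2)` -/
theorem sqrt_eq_exp (u : ℝ) : √(1 + u ^ 2) = Real.exp (log (1 + u ^ 2) / 2) := by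
  have h : 0 < 1 + u ^ 2 := by positivity
  rw [← Real.log_sqrt h.le, Real.exp_log (Real.sqrt_pos.2 h)]

omit [InnerProductSpace ℝ H] in
theorem est_low {a z : H} {c l : ℝ} (hc : c ≤ 1 / 2) (hl : Real.exp (-l / 2) ≤ c)
    (h : l ≤ log (1 + ‖z‖ ^ 2) - log (1 + ‖a‖ ^ 2)) :
    |log (1 + ‖a - z‖ ^ 2) - log (1 + ‖z‖ ^ 2)| ≤ 4 * c := by
  have hc0 : 0 ≤ c := (Real.exp_pos _).le.trans hl
  refine log_sqrt_close hc ?_ hc0
  refine (sqrt_lip _ _).trans ?_
  have h1 : |‖a - z‖ - ‖z‖| ≤ ‖a‖ := by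
    have := abs_norm_sub_norm_le (a - z) (-z)
    rwa [norm_neg, sub_neg_eq_add, sub_add_cancel] at this
  have h2 : ‖a‖ ≤ √(1 + ‖a‖ ^ 2) := Real.le_sqrt_of_sq_le (by linarith)
  have h3 : √(1 + ‖a‖ ^ 2) ≤ c * √(1 + ‖z‖ ^ 2) := by
    rw [sqrt_eq_exp, sqrt_eq_exp]
    calc Real.exp (log (1 + ‖a‖ ^ 2) / 2) ≤ Real.exp (-l / 2 + log (1 + ‖z‖ ^ 2) / 2) :=
          Real.exp_le_exp.2 (by linarith)
      _ = Real.exp (-l / 2) * Real.exp (log (1 + ‖z‖ ^ 2) / 2) := Real.exp_add _ _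
      _ ≤ c * Real.exp (log (1 + ‖z‖ ^ 2) / 2) :=
          mul_le_mul_of_nonneg_right hl (Real.exp_pos _).le
  linarith

omit [InnerProductSpace ℝ H] in
theorem est_high {a z : H} {c l : ℝ} (hc : c ≤ 1 / 2) (hl : Real.exp (-l / 2) ≤ c)
    (h : l ≤ log (1 + ‖a‖ ^ 2) - log (1 + ‖z‖ ^ 2)) :
    |log (1 + ‖a - z‖ ^ 2) - log (1 + ‖a‖ ^ 2)| ≤ 4 * c := by
  have := est_low (a := z) (z := a) hc hl h
  rwa [norm_sub_rev z a] at this

/-- clipped value -/
noncomputable def cl (L t : ℝ) : ℝ := max (-L) (min L t)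

theorem cl_mono (L : ℝ) : Monotone (cl L) := fun _ _ h =>
  max_le_max le_rfl (min_le_min le_rfl h)

noncomputable def NN (L η t : ℝ) : ℕ := ⌊(cl L t + L) / η⌋₊

theorem NN_mono (L : ℝ) {η : ℝ} (hη : 0 < η) : Monotone (NN L η) := fun s t h => by
  unfold NN
  have h1 : cl L s + L ≤ cl L t + L := add_le_add (cl_mono L h) le_rfl
  exact Nat.floor_mono ((div_le_div_iff_of_pos_right hη).2 h1)

theorem NN_le {L : ℝ} (hL : 0 < L) {η : ℝ} (hη : 0 < η) (t : ℝ) : NN L η t ≤ ⌊2 * L / η⌋₊ := by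
  apply Nat.floor_mono
  have : cl L t ≤ L := max_le (by linarith) (min_le_left _ _)
  exact (div_le_div_iff_of_pos_right hη).2 (by linarith)

theorem NN_eq {L : ℝ} (hL : 0 < L) {η : ℝ} (hη : 0 < η) (hηL : η ≤ L) {t t' : ℝ}
    (h : NN L η t = NN L η t') :
    |t - t'| ≤ η ∨ (L - η ≤ t ∧ L - η ≤ t') ∨ (t ≤ -(L - η) ∧ t' ≤ -(L - η)) := by
  have h0 : ∀ s, 0 ≤ (cl L s + L) / η := fun s => by
    have : -L ≤ cl L s := le_max_left _ _
    exact div_nonneg (by linarith) hη.le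
  have hd : |cl L t - cl L t'| ≤ η := by
    have a1 := Nat.floor_le (h0 t)
    have a2 := Nat.lt_floor_add_one ((cl L t + L) / η)
    have b1 := Nat.floor_le (h0 t')
    have b2 := Nat.lt_floor_add_one ((cl L t' + L) / η)
    unfold NN at h
    rw [h] at a1 a2
    have c1 : (cl L t + L) / η - (cl L t' + L) / η < 1 := by linarith
    have c2 : (cl L t' + L) / η - (cl L t + L) / η < 1 := by linarith
    rw [← sub_div, div_lt_one hη] at c1 c2
    rw [abs_le]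
    constructor <;> linarith
  rw [abs_le] at hd
  have key : ∀ s, (s ≤ -L ∧ cl L s = -L) ∨ (-L ≤ s ∧ s ≤ L ∧ cl L s = s) ∨ (L ≤ s ∧ cl L s = L) := by
    intro s
    rcases le_total s (-L) with h1 | h1
    · left
      refine ⟨h1, ?_⟩
      unfold cl
      rw [min_eq_right (by linarith), max_eq_left h1]
    · rcases le_total s L with h2 | h2
      · right; left
        refine ⟨h1, h2, ?_⟩
        unfold cl
        rw [min_eq_right h2, max_eq_right h1]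
      · right; right
        refine ⟨h2, ?_⟩
        unfold cl
        rw [min_eq_left h2, max_eq_right (by linarith)]
  rcases key t with ⟨k1, k2⟩ | ⟨k1, k1', k2⟩ | ⟨k1, k2⟩ <;>
  rcases key t' with ⟨l1, l2⟩ | ⟨l1, l1', l2⟩ | ⟨l1, l2⟩ <;>
  rw [k2, l2] at hd
  · right; right; constructor <;> linarith
  · right; right; constructor <;> linarith
  · right; left; constructor <;> linarith
  · right; right; constructor <;> linarith
  · left; rw [abs_le]; constructor <;> linarith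
  · right; left; constructor <;> linarith
  · right; left; constructor <;> linarith
  · right; left; constructor <;> linarith
  · right; left; constructor <;> linarith

theorem fract_close {M : ℕ} (hM : 0 < M) {s t : ℝ}
    (h : ⌊Int.fract s * (M : ℝ)⌋₊ = ⌊Int.fract t * (M : ℝ)⌋₊) :
    |Int.fract s - Int.fract t| ≤ 1 / M := by
  have hM' : (0 : ℝ) < M := by exact_mod_cast hM
  have h0 : ∀ s : ℝ, 0 ≤ Int.fract s * (M : ℝ) := fun s => mul_nonneg (Int.fract_nonneg s) hM'.le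
  have a1 := Nat.floor_le (h0 s)
  have a2 := Nat.lt_floor_add_one (Int.fract s * (M : ℝ))
  have b1 := Nat.floor_le (h0 t)
  have b2 := Nat.lt_floor_add_one (Int.fract t * (M : ℝ))
  rw [h] at a1 a2
  have c1 : (Int.fract s - Int.fract t) * M ≤ 1 := by rw [sub_mul]; linarith
  have c2 : (Int.fract t - Int.fract s) * M ≤ 1 := by rw [sub_mul]; linarith
  rw [← le_div_iff₀ hM'] at c1 c2
  rw [abs_le]
  constructor <;> linarith

theorem cos_fract (u : ℝ) : cos u = cos (2 * π * Int.fract (u / (2 * π))) := by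
  have h : 2 * π * Int.fract (u / (2 * π)) = u - ⌊u / (2 * π)⌋ * (2 * π) := by
    unfold Int.fract
    have : (2 * π) ≠ 0 := by positivity
    field_simp
  rw [h, Real.cos_sub_int_mul_two_pi]

/-- Few patterns: the functions `i ↦ cos (log (1 + ‖y i - z‖²))` on a finite set of `m` points are
described up to an error `ε` by a code taking polynomially many values. -/
theorem coding (ε : ℝ) (hε : 0 < ε) (hε1 : ε ≤ 1) : ∃ P M K : ℕ, ∀ (ι : Type) [Fintype ι] [Nonempty ι]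
    (y : ι → H), ∃ code : H → ι × Fin (Fintype.card ι * P + 1) × Fin M ×
      (Fin K → Option (ι × Bool)),
      ∀ z z', code z = code z' → ∀ i,
        |cos (log (1 + ‖y i - z‖ ^ 2)) - cos (log (1 + ‖y i - z'‖ ^ 2))| ≤ ε := by
  -- parameters
  obtain ⟨η, hη⟩ : ∃ η, η = ε / 40 := ⟨_, rfl⟩
  obtain ⟨e, he⟩ : ∃ e, e = ε / 40 := ⟨_, rfl⟩
  obtain ⟨c, hc⟩ : ∃ c, c = ε / 32 := ⟨_, rfl⟩
  obtain ⟨l, hl⟩ : ∃ l, l = 2 * log (32 / ε) := ⟨_, rfl⟩
  have pη : 0 < η := by rw [hη]; positivity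
  have pe : 0 < e := by rw [he]; positivity
  have hlog : 0 < log (32 / ε) := Real.log_pos (by rw [lt_div_iff₀ hε]; linarith)
  have hexp : Real.exp (-l / 2) ≤ c := by
    rw [hl, hc]
    have : -(2 * log (32 / ε)) / 2 = - log (32 / ε) := by ring
    rw [this, Real.exp_neg, Real.exp_log (by positivity), inv_div]
  have hc2 : c ≤ 1 / 2 := by rw [hc]; linarith
  obtain ⟨L, hL⟩ : ∃ L, L = l + η := ⟨_, rfl⟩
  have pL : 0 < L := by rw [hL, hl]; positivity
  obtain ⟨M, hM⟩ : ∃ M : ℕ, 8 * π / ε < M := exists_nat_gt _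
  have pM' : (0 : ℝ) < M := lt_trans (by positivity) hM
  have pM : 0 < M := by exact_mod_cast pM'
  obtain ⟨K, hK⟩ : ∃ K : ℕ, 1 / e ^ 2 < K := exists_nat_gt _
  refine ⟨⌊2 * L / η⌋₊, M, K, ?_⟩
  intro ι _ _ y
  have h1 : ∀ z, ∃ i0, ∀ i, ‖y i0 - z‖ ≤ ‖y i - z‖ := fun z =>
    Finite.exists_min (fun i => ‖y i - z‖)
  choose i0 hi0 using h1
  have h2 : ∀ z, ∃ w : Fin K → Option (ι × Bool), ∀ i,
      |inner ℝ ((√(1 + ‖y i - y (i0 z)‖ ^ 2))⁻¹ • (y i - y (i0 z)))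
        ((√(1 + ‖z - y (i0 z)‖ ^ 2))⁻¹ • (z - y (i0 z)) -
          ∑ j, e • letter (fun i => (√(1 + ‖y i - y (i0 z)‖ ^ 2))⁻¹ • (y i - y (i0 z))) (w j))|
      ≤ e := by
    intro z
    have hn : ∀ x : H, ‖(√(1 + ‖x‖ ^ 2))⁻¹ • x‖ ≤ 1 := by
      intro x
      have hp : 0 < √(1 + ‖x‖ ^ 2) := Real.sqrt_pos.2 (by positivity)
      rw [norm_smul, norm_inv, Real.norm_eq_abs, abs_of_pos hp, inv_mul_le_iff₀ hp, mul_one]
      exact Real.le_sqrt_of_sq_le (by linarith)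
    refine perceptron (fun i => (√(1 + ‖y i - y (i0 z)‖ ^ 2))⁻¹ • (y i - y (i0 z)))
      (fun i => hn _) e pe K _ ?_
    have h3 := hn (z - y (i0 z))
    have h4 : 1 ≤ K * e ^ 2 := by
      rw [div_lt_iff₀ (by positivity)] at hK
      exact hK.le
    have h5 := norm_nonneg ((√(1 + ‖z - y (i0 z)‖ ^ 2))⁻¹ • (z - y (i0 z)))
    nlinarith
  choose w hw using h2
  -- the code
  have hs : ∀ z, ∑ i, NN L η (log (1 + ‖z - y (i0 z)‖ ^ 2) - log (1 + ‖y i - y (i0 z)‖ ^ 2))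
      < Fintype.card ι * ⌊2 * L / η⌋₊ + 1 := by
    intro z
    have h3 : ∑ i, NN L η (log (1 + ‖z - y (i0 z)‖ ^ 2) - log (1 + ‖y i - y (i0 z)‖ ^ 2))
        ≤ ∑ _i : ι, ⌊2 * L / η⌋₊ := Finset.sum_le_sum fun i _ => NN_le pL pη _
    rw [Finset.sum_const, Finset.card_univ, smul_eq_mul] at h3
    omega
  have hq : ∀ z, ⌊Int.fract (log (1 + ‖z - y (i0 z)‖ ^ 2) / (2 * π)) * M⌋₊ < M := by
    intro z
    rw [Nat.floor_lt (mul_nonneg (Int.fract_nonneg _) pM'.le)]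
    have := Int.fract_lt_one (log (1 + ‖z - y (i0 z)‖ ^ 2) / (2 * π))
    nlinarith
  refine ⟨fun z => (i0 z, ⟨_, hs z⟩, ⟨_, hq z⟩, w z), ?_⟩
  intro z z' hzz i
  simp only [Prod.mk.injEq, Fin.mk.injEq] at hzz
  obtain ⟨e1, e2, e3, e4⟩ := hzz
  have hwz := hw z i
  have hwz' := hw z' i
  rw [← e1, ← e4] at hwz'
  rw [← e1] at e2 e3
  have n1 := hi0 z i
  have n2 := hi0 z' i
  rw [← e1] at n2
  clear hw hi0 hs hq
  -- abbreviations
  generalize hj : i0 z = j at *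
  generalize hwz0 : w z = wz at *
  -- all `NN` agree
  have hNN : ∀ i, NN L η (log (1 + ‖z - y j‖ ^ 2) - log (1 + ‖y i - y j‖ ^ 2))
      = NN L η (log (1 + ‖z' - y j‖ ^ 2) - log (1 + ‖y i - y j‖ ^ 2)) := by
    rcases le_total (log (1 + ‖z - y j‖ ^ 2)) (log (1 + ‖z' - y j‖ ^ 2)) with hle | hle
    · have hm : ∀ i ∈ (Finset.univ : Finset ι),
          NN L η (log (1 + ‖z - y j‖ ^ 2) - log (1 + ‖y i - y j‖ ^ 2))
          ≤ NN L η (log (1 + ‖z' - y j‖ ^ 2) - log (1 + ‖y i - y j‖ ^ 2)) := fun i _ =>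
        NN_mono L pη (by linarith)
      have := (Finset.sum_eq_sum_iff_of_le hm).1 e2
      exact fun i => this i (Finset.mem_univ i)
    · have hm : ∀ i ∈ (Finset.univ : Finset ι),
          NN L η (log (1 + ‖z' - y j‖ ^ 2) - log (1 + ‖y i - y j‖ ^ 2))
          ≤ NN L η (log (1 + ‖z - y j‖ ^ 2) - log (1 + ‖y i - y j‖ ^ 2)) := fun i _ =>
        NN_mono L pη (by linarith)
      have := (Finset.sum_eq_sum_iff_of_le hm).1 e2.symm
      exact fun i => (this i (Finset.mem_univ i)).symm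
  have hyz : y i - z = (y i - y j) - (z - y j) := by abel
  have hyz' : y i - z' = (y i - y j) - (z' - y j) := by abel
  rw [norm_sub_rev (y j) z, hyz] at n1
  rw [norm_sub_rev (y j) z', hyz'] at n2
  rw [hyz, hyz']
  have hN := hNN i
  clear hNN e2 hyz hyz'
  generalize (∑ j_1, e • letter (fun i => (√(1 + ‖y i - y j‖ ^ 2))⁻¹ • (y i - y j)) (wz j_1)) = S
    at hwz hwz'
  generalize y i - y j = a at *
  generalize z - y j = ζ at *
  generalize z' - y j = ζ' at *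
  rcases NN_eq pL pη (by rw [hL, hl]; linarith) hN with h3 | ⟨h3, h4⟩ | ⟨h3, h4⟩
  · -- middle
    refine (abs_cos_sub_cos_le _ _).trans ?_
    have h5 : |log (1 + ‖ζ‖ ^ 2) - log (1 + ‖ζ'‖ ^ 2)| ≤ η := by
      have : log (1 + ‖ζ‖ ^ 2) - log (1 + ‖ζ'‖ ^ 2) = log (1 + ‖ζ‖ ^ 2) - log (1 + ‖a‖ ^ 2)
        - (log (1 + ‖ζ'‖ ^ 2) - log (1 + ‖a‖ ^ 2)) := by ring
      rw [this]
      exact h3
    have h6 : |inner ℝ ((√(1 + ‖a‖ ^ 2))⁻¹ • a)
        ((√(1 + ‖ζ‖ ^ 2))⁻¹ • ζ - (√(1 + ‖ζ'‖ ^ 2))⁻¹ • ζ')| ≤ 2 * e := by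
      rw [inner_sub_right] at hwz hwz' ⊢
      rw [abs_le] at hwz hwz' ⊢
      constructor <;> linarith [hwz.1, hwz.2, hwz'.1, hwz'.2]
    have h7 := est_mid pe.le pη.le (by rw [hη, he]; linarith) n1 n2 h6 h5
    refine h7.trans ?_
    rw [hη, he]
    linarith
  · -- low
    have hh : L - η = l := by rw [hL]; ring
    rw [hh] at h3 h4
    have b1 := est_low hc2 hexp h3
    have b2 := est_low hc2 hexp h4
    have b3 := fract_close pM e3
    have b4 : |cos (log (1 + ‖ζ‖ ^ 2)) - cos (log (1 + ‖ζ'‖ ^ 2))| ≤ ε / 4 := by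
      rw [cos_fract (log (1 + ‖ζ‖ ^ 2)), cos_fract (log (1 + ‖ζ'‖ ^ 2))]
      refine (abs_cos_sub_cos_le _ _).trans ?_
      rw [← mul_sub, abs_mul, abs_of_pos (by positivity : 0 < 2 * π)]
      calc 2 * π * _ ≤ 2 * π * (1 / M) := mul_le_mul_of_nonneg_left b3 (by positivity)
        _ = 2 * π / M := by ring
        _ ≤ ε / 4 := by
          rw [div_lt_iff₀ hε] at hM
          rw [div_le_iff₀ pM']
          linarith
    have b5 := (abs_cos_sub_cos_le _ _).trans b1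
    have b6 := (abs_cos_sub_cos_le _ _).trans b2
    rw [abs_le] at b4 b5 b6 ⊢
    rw [hc] at b5 b6
    constructor <;> linarith [b4.1, b4.2, b5.1, b5.2, b6.1, b6.2]
  · -- high
    have hh : L - η = l := by rw [hL]; ring
    rw [hh] at h3 h4
    have b1 := est_high (a := a) (z := ζ) hc2 hexp (by linarith)
    have b2 := est_high (a := a) (z := ζ') hc2 hexp (by linarith)
    have b5 := (abs_cos_sub_cos_le _ _).trans b1
    have b6 := (abs_cos_sub_cos_le _ _).trans b2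
    rw [abs_le] at b5 b6 ⊢
    rw [hc] at b5 b6
    constructor <;> linarith [b5.1, b5.2, b6.1, b6.2]

end Pool.Agent.W5h40.NT
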